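import Pool.Agent.Helper16.SD.GoalsD

/-! Project SD (MP_fc6b1e_nt), packet SD-K_SPEC (helper79): the Kummer symbol. -/

set_option autoImplicit false

namespace Pool.Agent.Helper79.SD.K_SPEC

open Pool.Agent.Helper16.SD

section

variable {p : ℕ} [hp : Fact p.Prime] {K : Type} [Field K] {k : ℕ}

lemma ppos (p : ℕ) [hp : Fact p.Prime] (k : ℕ) : 0 < p ^ k := pow_pos hp.out.pos k

lemma pow_val_add {M : Type} [Monoid M] {ζ : M} {n : ℕ} (hn : 0 < n) (hζ : ζ ^ n = 1)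
    (a b : ZMod n) : ζ ^ (a + b).val = ζ ^ a.val * ζ ^ b.val := by
  have : NeZero n := ⟨hn.ne'⟩
  rw [← pow_add, ZMod.val_add]
  exact (pow_eq_pow_mod _ hζ).symm

lemma pow_val_mul {M : Type} [Monoid M] {ζ : M} {n : ℕ} (hn : 0 < n) (hζ : ζ ^ n = 1)
    (a b : ZMod n) : ζ ^ (a * b).val = (ζ ^ a.val) ^ b.val := by
  have : NeZero n := ⟨hn.ne'⟩
  rw [← pow_mul, ZMod.val_mul]
  exact (pow_eq_pow_mod _ hζ).symm

lemma pow_val_inj {ζ : AlgebraicClosure K} (hζ : IsPrimitiveRoot ζ (p ^ k)) {a b : ZMod (p ^ k)}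
    (h : ζ ^ a.val = ζ ^ b.val) : a = b := by
  have : NeZero (p ^ k) := ⟨(ppos p k).ne'⟩
  exact ZMod.val_injective _ (hζ.pow_inj (ZMod.val_lt a) (ZMod.val_lt b) h)

lemma root_of_pow_eq {ζ : AlgebraicClosure K} (hζ : IsPrimitiveRoot ζ (p ^ k))
    {r s : AlgebraicClosure K} (hr : r ≠ 0) (h : s ^ p ^ k = r ^ p ^ k) :
    ∃ t : ZMod (p ^ k), s = ζ ^ t.val * r := by
  have hne : NeZero (p ^ k) := ⟨(ppos p k).ne'⟩
  have h1 : (s / r) ^ p ^ k = 1 := by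
    rw [div_pow, h, div_self (pow_ne_zero _ hr)]
  obtain ⟨i, hi, hi2⟩ := hζ.eq_pow_of_pow_eq_one h1
  refine ⟨(i : ZMod (p ^ k)), ?_⟩
  rw [ZMod.val_natCast, Nat.mod_eq_of_lt hi, hi2, div_mul_cancel₀ _ hr]

lemma exists_t {ζ : AlgebraicClosure K} (hζ : IsPrimitiveRoot ζ (p ^ k))
    {x : AlgebraicClosure K} {h : AlgebraicClosure K ≃ₐ[K] AlgebraicClosure K} (hx0 : x ≠ 0)
    (hx : h x = x) {r : AlgebraicClosure K} (hr : r ^ p ^ k = x) :
    ∃ t : ZMod (p ^ k), h r = ζ ^ t.val * r := by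
  have hr0 : r ≠ 0 := by
    rintro rfl
    apply hx0
    rw [← hr, zero_pow (ppos p k).ne']
  apply root_of_pow_eq hζ hr0
  rw [← map_pow, hr, hx]

lemma unique {ζ : AlgebraicClosure K} (hζ : IsPrimitiveRoot ζ (p ^ k))
    {x : AlgebraicClosure K} {h : AlgebraicClosure K ≃ₐ[K] AlgebraicClosure K} (hx0 : x ≠ 0)
    (hζh : h ζ = ζ) {r r' : AlgebraicClosure K} (hr : r ^ p ^ k = x) (hr' : r' ^ p ^ k = x)
    {t t' : ZMod (p ^ k)} (ht : h r = ζ ^ t.val * r) (ht' : h r' = ζ ^ t'.val * r') : t = t' := by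
  have hr0 : r ≠ 0 := by
    rintro rfl
    apply hx0
    rw [← hr, zero_pow (ppos p k).ne']
  have hr0' : r' ≠ 0 := by
    rintro rfl
    apply hx0
    rw [← hr', zero_pow (ppos p k).ne']
  obtain ⟨i, hi⟩ := root_of_pow_eq hζ (r := r) (s := r') hr0 (by rw [hr, hr'])
  have h1 : h r' = ζ ^ t.val * r' := by
    rw [hi, map_mul, map_pow, hζh, ht]
    ring
  rw [ht'] at h1
  exact (pow_val_inj hζ (mul_right_cancel₀ hr0' h1)).symm

lemma exists_root (x : AlgebraicClosure K) (k : ℕ) : ∃ r : AlgebraicClosure K, r ^ p ^ k = x :=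
  IsAlgClosed.exists_pow_nat_eq x (ppos p k)

lemma kum_spec {ζ : AlgebraicClosure K} (hζ : IsPrimitiveRoot ζ (p ^ k))
    {x : AlgebraicClosure K} {h : AlgebraicClosure K ≃ₐ[K] AlgebraicClosure K} (hx0 : x ≠ 0)
    (hζh : h ζ = ζ) (hx : h x = x) {r : AlgebraicClosure K} (hr : r ^ p ^ k = x)
    (t : ZMod (p ^ k)) : h r = ζ ^ t.val * r ↔ t = kum p k ζ x h := by
  have hex : ∃ t, IsKum p k ζ x h t := by
    obtain ⟨r, hr⟩ := exists_root (p := p) x k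
    obtain ⟨t, ht⟩ := exists_t hζ hx0 hx hr
    exact ⟨t, r, hr, ht⟩
  have hk : kum p k ζ x h = hex.choose := by
    unfold kum
    exact dif_pos hex
  obtain ⟨r₀, hr₀, ht₀⟩ := hex.choose_spec
  rw [← hk] at ht₀
  constructor
  · intro ht
    exact unique hζ hx0 hζh hr hr₀ ht ht₀
  · rintro rfl
    obtain ⟨t', ht'⟩ := exists_t hζ hx0 hx hr
    have : t' = kum p k ζ x h := unique hζ hx0 hζh hr hr₀ ht' ht₀
    rw [← this]
    exact ht'

lemma fix_conj {ζ : AlgebraicClosure K} (hζ : IsPrimitiveRoot ζ (p ^ k))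
    {g h : AlgebraicClosure K ≃ₐ[K] AlgebraicClosure K} (hζh : h ζ = ζ) :
    (g * h * g⁻¹) ζ = ζ := by
  have hne : NeZero (p ^ k) := ⟨(ppos p k).ne'⟩
  have h1 : (g⁻¹ ζ) ^ p ^ k = 1 := by
    rw [← map_pow, hζ.pow_eq_one, map_one]
  obtain ⟨i, _, hi2⟩ := hζ.eq_pow_of_pow_eq_one h1
  have h2 : h (g⁻¹ ζ) = g⁻¹ ζ := by
    rw [← hi2, map_pow, hζh]
  rw [AlgEquiv.mul_apply, AlgEquiv.mul_apply, h2, ← AlgEquiv.mul_apply, mul_inv_cancel,
    AlgEquiv.one_apply]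

end

theorem t : Pool.Agent.Helper16.SD.K_SPEC := by
  intro p hp K _ _ k ζ hζ
  have enough : ∀ i : ℕ, HasEnoughRootsOfUnity (AlgebraicClosure K) (p ^ i) := by
    intro i
    have : NeZero ((p ^ i : ℕ) : AlgebraicClosure K) :=
      ⟨Nat.cast_ne_zero.2 (pow_ne_zero _ (Fact.out : p.Prime).ne_zero)⟩
    infer_instance
  have hpos := ppos p k
  have h1 := hζ.pow_eq_one
  refine ⟨fun x h hx0 hζh hx r hr t => kum_spec hζ hx0 hζh hx hr t, ?_, ?_, ?_, ?_⟩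
  · intro x y h hx0 hy0 hζh hx hy
    obtain ⟨r, hr⟩ := exists_root (p := p) x k
    obtain ⟨s, hs⟩ := exists_root (p := p) y k
    have e1 := (kum_spec hζ hx0 hζh hx hr (kum p k ζ x h)).2 rfl
    have e2 := (kum_spec hζ hy0 hζh hy hs (kum p k ζ y h)).2 rfl
    have hrs : (r * s) ^ p ^ k = x * y := by rw [mul_pow, hr, hs]
    have hxy : h (x * y) = x * y := by rw [map_mul, hx, hy]
    refine ((kum_spec hζ (mul_ne_zero hx0 hy0) hζh hxy hrs _).1 ?_).symm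
    rw [map_mul, e1, e2, pow_val_add hpos h1]
    ring
  · intro x h h' hx0 hζh hx hζh' hx'
    obtain ⟨r, hr⟩ := exists_root (p := p) x k
    have e1 := (kum_spec hζ hx0 hζh hx hr (kum p k ζ x h)).2 rfl
    have e2 := (kum_spec hζ hx0 hζh' hx' hr (kum p k ζ x h')).2 rfl
    have hc1 : (h * h') ζ = ζ := by rw [AlgEquiv.mul_apply, hζh', hζh]
    have hc2 : (h * h') x = x := by rw [AlgEquiv.mul_apply, hx', hx]
    refine ((kum_spec hζ hx0 hc1 hc2 hr _).1 ?_).symm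
    rw [AlgEquiv.mul_apply, e2, map_mul, map_pow, hζh, e1, pow_val_add hpos h1]
    ring
  · intro z h hz0 hζh hz
    have hz' : h (z ^ p ^ k) = z ^ p ^ k := by rw [map_pow, hz]
    refine ((kum_spec hζ (pow_ne_zero _ hz0) hζh hz' rfl 0).1 ?_).symm
    rw [hz, ZMod.val_zero, pow_zero, one_mul]
  · intro x g h hx0 hζh hx
    obtain ⟨r, hr⟩ := exists_root (p := p) x k
    have e1 := (kum_spec hζ hx0 hζh hx hr (kum p k ζ x h)).2 rfl
    have hgr : (g r) ^ p ^ k = g x := by rw [← map_pow, hr]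
    have hgx0 : g x ≠ 0 := by
      intro h0
      apply hx0
      rwa [map_eq_zero] at h0
    have hcx : (g * h * g⁻¹) (g x) = g x := by
      rw [AlgEquiv.mul_apply, AlgEquiv.mul_apply, ← AlgEquiv.mul_apply g⁻¹ g, inv_mul_cancel,
        AlgEquiv.one_apply, hx]
    refine ((kum_spec hζ hgx0 (fix_conj hζ hζh) hcx hgr _).1 ?_).symm
    have hc : g ζ = ζ ^ (PadicInt.toZModPow k (cyc p g : ℤ_[p])).val :=
      cyclotomicCharacter.spec p (g : AlgebraicClosure K ≃+* AlgebraicClosure K) ζ h1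
    rw [AlgEquiv.mul_apply, AlgEquiv.mul_apply, ← AlgEquiv.mul_apply g⁻¹ g, inv_mul_cancel,
      AlgEquiv.one_apply, e1, map_mul, map_pow, hc, pow_val_mul hpos h1]

end Pool.Agent.Helper79.SD.K_SPEC
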